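import Pool.Agent.N98.SS.Fin2
import Pool.Agent.TH188.QS.Bases3

/-!
MP_1a953e_ag: semistable uniformization, in bounded degree, of the points of `X^ad` of all ranks.

Let `k` be a (complete) discretely valued field with the ring of integers `O`, the uniformizer `π`
and the residue field `κ` of characteristic `p ≥ 0`; if `k` has positive characteristic, suppose that
`κ` is finite over `κ ^ p`. Let `X` be an integral projective `k`-scheme of any dimension with the
function field `K`, with the projective flat model `𝒳` over `O`. Consider a point of the adic space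
`X^ad` over the generic point of `X`, that is, a valuation ring `V` of `K`, of any rank, which
contains `O`, such that `π` is topologically nilpotent: every value of `V` is exceeded by the value
of a power of `π`. Let `E ⊆ K` be a subfield, finitely generated over `k`, such that the restriction
of `V` to `E` is discrete, or has divergent sequences of quadratic transforms, or is log
uniformizable (for example, if the transcendence degree of `E / k` is at most `2`, by Cossart and
Piltant; in particular, if `E = k`). Suppose that `K / E` has the transcendence degree `r` and degree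
at most `δ`, that `𝒳` is defined by polynomials of degree at most `e` over `E`, and that `p = 0` or
`p > (δ e ^ r) ^ 2 ^ r`. Suppose that `|π|` is not a `p`-th power in the value group of `V`.

Then there are numbers `d` and `N₀` such that, for every `N ≥ N₀` divisible by `d`, for `l = k(ϖ)`,
`ϖ ^ N = π`, with the ring of integers `O[ϖ]`, and for every preimage `V'` of `V` in `X_l^ad`, a
blowing-up of `𝒳 ⊗ O[ϖ]` in a closed subscheme of the special fibre, that is, an admissible
blowing-up, is semistable at the specialization of `V'`, and at the specializations of all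
generizations of `V'` in `X_l^ad`: the local ring is regular, and `ϖ` is a product of distinct
elements of a regular system of parameters. The number `d` is prime to `p`, unless the value of `π`
is infinitely near to a `p`-th power `|z| ^ p` (all powers of the value of `π / z ^ p` are greater
than the value of `π`); in particular, `d` is prime to `p` if `|π|` is not a `p`-th power in the
value group of the generization of `V` of rank one. There is no condition on the rank, on the
defect, on the residue field or on the limit key polynomials of `V`.

Because of the generizations, the theorem contains also some points of rank one for which `|π|` is a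
`p`-th power (wildly ramified points of the Berkovich space): it suffices that `|π|` is not a `p`-th
power in the value group of some specialization in `X^ad` with the properties above.

The simplest case: `X ⊆ ℙ^N_k` is an integral subscheme of dimension `r` and degree `δ`, `𝒳` is its
closure in `ℙ^N_O`, and `p > δ ^ 2 ^ r`.

The proof combines families of polynomials of bounded degree (log regular models on which all
members of a family are locally monomial) with the semistable models of the starting files. New
parts: the monomials with the product `ϖ`, for ordered groups of arbitrary rank (SS/Comb2); the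
localizations of regular local rings are regular (Serre), which Mathlib does not contain; the
semistable locus is stable under generization.

helper98; built on the library of the starting files.
-/

set_option autoImplicit false

universe u

namespace Pool.Agent.Results.MP_1a953e_ag.BoundedDegreeAdicPoints

open IsLocalRing Pool.Agent.W418.LU2 Pool.Agent.TH188.QS

/-- The local ring of `Spec B` at the centre of the valuation ring `V`: the fractions of elements
of `B` whose denominators are units of `V`. -/
def centreRing {F : Type u} [Field F] (V : ValuationSubring F) (B : Subring F) : Subring F where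
  carrier := {x | ∃ a ∈ B, ∃ b ∈ B, b ≠ 0 ∧ b⁻¹ ∈ V ∧ x = a * b⁻¹}
  mul_mem' := (lo V.toSubring B).mul_mem'
  one_mem' := (lo V.toSubring B).one_mem'
  add_mem' := (lo V.toSubring B).add_mem'
  zero_mem' := (lo V.toSubring B).zero_mem'
  neg_mem' := (lo V.toSubring B).neg_mem'

/-- The quadratic transform of `Q` along `V`: the local ring, at the centre of `V`, of the
blowing-up of `Spec Q` in the centre of `V`. -/
def quadraticTransform {K : Type u} [Field K] (V : ValuationSubring K) (Q : Subring K) :
    Subring K :=
  centreRing V (Subring.closure ((Q : Set K) ∪ {t | ∃ y ∈ Q, ∃ z ∈ Q,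
    V.valuation y < 1 ∧ z ≠ 0 ∧ V.valuation z < 1 ∧
      (∀ w ∈ Q, V.valuation w < 1 → V.valuation w ≤ V.valuation z) ∧ t = y / z}))

/-- The sequence of quadratic transforms of the local ring of `Spec A` at the centre of `V`. -/
def quadraticSequence {K : Type u} [Field K] (V : ValuationSubring K) (A : Subring K) :
    ℕ → Subring K
  | 0 => centreRing V A
  | n + 1 => quadraticTransform V (quadraticSequence V A n)

/-- The values of the maximal ideals in the sequence of quadratic transforms have an infinite sum:
every value of `V` is exceeded by the value of all products `z 0 * ... * z (n - 1)` of elements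
`z i` of the maximal ideals of the rings of the sequence, for some `n`. -/
def IsDivergent {K : Type u} [Field K] (V : ValuationSubring K) (A : Subring K) : Prop :=
  ∀ x : K, x ≠ 0 → ∃ n : ℕ, ∀ z : ℕ → K,
    (∀ i < n, z i ∈ quadraticSequence V A i ∧ z i ≠ 0 ∧ V.valuation (z i) < 1) →
      V.valuation (∏ i ∈ Finset.range n, z i) < V.valuation x

/-- The subring `P` of the field `K` is a regular local ring, and `ϖ` is the product of some (at
least one) of the elements of a regular system of parameters. (If `ϖ` is a uniformizer of a discrete
valuation ring `O` with perfect residue field and `P` is the local ring of an integral flat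
`O`-scheme of finite type at a point of the special fibre, then these elements `t i` define a
morphism from a neighbourhood of this point to `Spec O[t 0, ..., t d] / (t 0 * ... * t d - ϖ)` which
is flat with regular, hence smooth, fibre through this point; so it is smooth there.) -/
def IsSemistable {K : Type u} [Field K] (P : Subring K) (ϖ : K) : Prop :=
  ∃ (_ : IsRegularLocalRing P) (n : ℕ) (x : Fin n → P) (S : Finset (Fin n)),
    Ideal.span (Set.range x) = IsLocalRing.maximalIdeal P ∧ ringKrullDim P = n ∧
      S.Nonempty ∧ ϖ = ∏ i ∈ S, (x i : K)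

/-- The coordinate ring `O[v / w : v ∈ W]` of the chart `w ≠ 0` of the projective `O`-scheme
`Proj O[W]` with the function field `K` and the homogeneous coordinates `W ⊆ K`. -/
def chart {K : Type u} [Field K] (O : Subring K) (W : Set K) (w : K) : Subring K :=
  Subring.closure ((O : Set K) ∪ {z | ∃ v ∈ W, z = v / w})

/-- `Y` is a finite set of forms of some degree `d` over `O` in the homogeneous coordinates `W`,
and `p ^ n` times any form of degree `d` is a linear combination of the forms in `Y`, for some `n`.
So the closed subscheme of `Proj O[W]` defined by the forms in `Y` is contained in the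
fibre over `p`. -/
def IsVerticalCentre {K : Type u} [Field K] (O : Subring K) (p : K) (W Y : Set K) : Prop :=
  Y.Finite ∧ ∃ d n : ℕ, Y ⊆ ((Submodule.span O W) ^ d : Submodule O K) ∧
    ∀ z ∈ (Submodule.span O W) ^ d, p ^ n * z ∈ Submodule.span O Y

/-- The homogeneous coordinates of the blowing-up of `Proj O[W]` in the closed subscheme which is
defined by the forms in `Y`. -/
def blowUpCoordinates {K : Type u} [Field K] (W Y : Set K) : Set K :=
  {z | ∃ y ∈ Y, ∃ v ∈ W, z = y * v}

/-- The projective scheme `Proj O[W]` is semistable at the centre of `V`, which lies in the chart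
`w ≠ 0`. -/
def IsSemistableAt {K : Type u} [Field K] (V : ValuationSubring K) (O : Subring K) (W : Set K)
    (ϖ : K) : Prop :=
  ∃ w ∈ W, w ≠ 0 ∧ (∀ v ∈ W, v / w ∈ V) ∧ IsSemistable (centreRing V (chart O W w)) ϖ

/-- The ring `O[ϖ]`. (If `O` is a discrete valuation ring with the uniformizer `π = ϖ ^ N`, then it
is the ring of integers of the totally ramified extension `k(ϖ)` of the field of fractions `k` of
`O`.) -/
def ramifiedRing {L K' : Type u} [Field L] [Field K'] (φ : L →+* K') (O : Subring L) (ϖ : K') :
    Subring K' :=
  Subring.closure ((O.map φ : Set K') ∪ {ϖ})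

/-- `K' = K(ϖ)` with `ϖ ^ N = π`, and `V'` is a valuation ring of `K'` over the valuation ring `V`
of `K`. -/
def IsLift {K K' : Type u} [Field K] [Field K'] [Algebra K K'] (V : ValuationSubring K) (π : K)
    (N : ℕ) (V' : ValuationSubring K') (ϖ : K') : Prop :=
  V'.comap (algebraMap K K') = V ∧ ϖ ^ N = algebraMap K K' π ∧
    ∀ z : K', z ∈ Subfield.closure (Set.range (algebraMap K K') ∪ {ϖ})

/-- The chart `A[I / f]` of the blowing-up of `Spec A` in the ideal `I`. -/
def blowUpChart {F : Type u} [Field F] (A : Subring F) (I : Ideal A) (f : A) : Subring F :=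
  Subring.closure ((A : Set F) ∪ {z | ∃ a ∈ I, z = (a : F) / (f : F)})

/-- `P` is a regular local ring and the zero set of `J` is a divisor with strict normal
crossings: the radical of `J` is generated by the product of some of the elements of a regular
system of parameters. -/
def RegularPair (P : Type u) [CommRing P] (J : Ideal P) : Prop :=
  ∃ (_ : IsRegularLocalRing P) (n : ℕ) (x : Fin n → P) (s : Finset (Fin n)),
    Ideal.span (Set.range x) = IsLocalRing.maximalIdeal P ∧ ringKrullDim P = n ∧
      J.radical = Ideal.span {∏ i ∈ s, x i}

/-- The blowing-up of `X = Spec A` in `V(I)` is a log desingularization of `(X, V(D))` along the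
valuation ring `V`. Here `f ∈ I` generates `I V`, the centre of the lift of the valuation lies in
the chart `Spec A[I / f]`, and the ideal `D I` defines the preimage of `V(D) ∪ V(I)`. -/
def IsLogDesingularization {F : Type u} [Field F] (V : ValuationSubring F) (A : Subring F)
    (D I : Ideal A) : Prop :=
  ∃ f ∈ I, f ≠ 0 ∧ (∀ a ∈ I, (a : F) / (f : F) ∈ V) ∧
    RegularPair (centreRing V (blowUpChart A I f))
      (Ideal.span {z | ∃ a ∈ D * I, (z : F) = (a : F)})

/-- The valuation ring `V` is log uniformizable on `Spec A`. (The blowings-up in the ideals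
`I₀ * I₁` are cofinal: the blowing-up in `I₀ * I₁` factors through the blowing-up in `I₀`.) -/
def IsLogUniformizable {F : Type u} [Field F] (V : ValuationSubring F) (A : Subring F) : Prop :=
  ∀ D I₀ : Ideal A, D ≠ ⊥ → I₀ ≠ ⊥ →
    ∃ I₁ : Ideal A, I₁ ≠ ⊥ ∧ IsLogDesingularization V A D (I₀ * I₁)

/-- Every element of the field `K` is a fraction of elements of `A`. -/
def HasFractionField {K : Type u} [Field K] (A : Subring K) : Prop :=
  ∀ z : K, ∃ a ∈ A, ∃ b ∈ A, b ≠ 0 ∧ z = a * b⁻¹

/-- `V` is a discrete valuation ring, or the sequence of quadratic transforms of `Spec A` along `V`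
is divergent for all `O`-algebras `A ⊆ V` of finite type, or `V` is log uniformizable on `Spec A` for
all `O`-algebras `A ⊆ V` of finite type with the fraction field `K`. -/
def IsAdmissible {K : Type u} [Field K] (O : Subring K) (V : ValuationSubring K) : Prop :=
  IsDiscreteValuationRing V ∨
    (∀ T : Set K, T.Finite → Subring.closure ((O : Set K) ∪ T) ≤ V.toSubring →
      IsDivergent V (Subring.closure ((O : Set K) ∪ T))) ∨
    ∀ T : Set K, T.Finite → Subring.closure ((O : Set K) ∪ T) ≤ V.toSubring →
      HasFractionField (Subring.closure ((O : Set K) ∪ T)) →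
      IsLogUniformizable V (Subring.closure ((O : Set K) ∪ T))

/-- The values at the point `x` of the polynomials over `E` of total degree at most `t`. -/
noncomputable def values (E : Type u) {K : Type u} [Field E] [Field K] [Algebra E K] {N : ℕ}
    (x : Fin N → K) (t : ℕ) : Submodule E K :=
  (MvPolynomial.restrictTotalDegree (Fin N) E t).map
    (MvPolynomial.aeval x : MvPolynomial (Fin N) E →ₐ[E] K).toLinearMap

/-- The variety in the affine space over `E` with the generic point `x` (the zeros of the
polynomials which vanish at `x`), whose function field is `K`, has dimension `r` and degree at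
most `δ`: its Hilbert function, the dimension of the space of the polynomial functions of degree
at most `t` on the variety, is at most `δ * t ^ r / r! + O (t ^ (r - 1))`. -/
def DegreeAtMost (E : Type u) {K : Type u} [Field E] [Field K] [Algebra E K] {N : ℕ}
    (x : Fin N → K) (r δ : ℕ) : Prop :=
  IntermediateField.adjoin E (Set.range x) = ⊤ ∧ Algebra.trdeg E K = r ∧
    ∃ C : ℕ, ∀ t : ℕ, r.factorial * Module.finrank E (values E x t) ≤ δ * (t + C) ^ r

/-- The element `z` is a product of (positive or negative) powers of polynomials of degree at most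
`e` in the `x j` with coefficients in `E`. -/
def IsProduct (E : Type u) {K : Type u} [Field E] [Field K] [Algebra E K] {N : ℕ}
    (x : Fin N → K) (e : ℕ) (z : K) : Prop :=
  ∃ (q : ℕ) (P : Fin q → MvPolynomial (Fin N) E) (n : Fin q → ℤ),
    (∀ i, (P i).totalDegree ≤ e) ∧ z = ∏ i, MvPolynomial.aeval x (P i) ^ n i

/-- The element `z` is a fraction of elements of `A` whose denominator is a product of (positive or
negative) powers of polynomials of degree at most `e` in the `x j` with coefficients in `E`. -/
def IsFraction (E : Type u) {K : Type u} [Field E] [Field K] [Algebra E K] {N : ℕ}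
    (x : Fin N → K) (e : ℕ) (A : Subring K) (z : K) : Prop :=
  ∃ b ∈ A, b ≠ 0 ∧ IsProduct E x e b ∧ b * z ∈ A

/-- The homogeneous coordinates `W` of the projective `O`-scheme `𝒳 = Proj O[W]` are products of
powers of polynomials of degree at most `e` in the `x j` over `E`, and the `x j` and some elements
which generate the field `E` over `O` are fractions of elements of the coordinate ring of the chart
`w ≠ 0` whose denominators are such products. (So `K` is the function field of `𝒳`.) -/
def IsDefinedInDegree {K : Type u} [Field K] (O : Subring K) (E : Subfield K) {N : ℕ}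
    (x : Fin N → K) (e : ℕ) (W : Set K) (w : K) : Prop :=
  (∀ z ∈ W, IsProduct E x e z) ∧ (∀ j, IsFraction E x e (chart O W w) (x j)) ∧
    ∃ T : Set K, T.Finite ∧ E = Subfield.closure ((O : Set K) ∪ T) ∧
      ∀ t ∈ T, IsFraction E x e (chart O W w) t

lemma quadraticSequence_eq {K : Type u} [Field K] (V : ValuationSubring K) (A : Subring K) :
    quadraticSequence V A = qseq V A := by
  funext n
  induction n with
  | zero => rfl
  | succ n ih =>
    change quadraticTransform V (quadraticSequence V A n) = qt V.toSubring (qseq V A n)
    rw [ih, qt_val]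
    rfl

lemma IsDivergent.dv {K : Type u} [Field K] {V : ValuationSubring K} {A : Subring K}
    (h : IsDivergent V A) : Dv V (qseq V A) := by
  rw [← quadraticSequence_eq]
  exact dv_of_lt h

/-- The Dedekind domain `O` has characteristic zero, or it has prime characteristic `p` and is a
finite module over its ring of `p`-th powers. -/
def IsBase (O : Type u) [CommRing O] : Prop :=
  CharZero O ∨ ∃ (p : ℕ) (_ : Fact p.Prime) (_ : CharP O p), (frobenius O p).Finite

lemma IsBase.hj {O : Type u} [CommRing O] [IsDedekindDomain O] (h : IsBase O) : HJ O := by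
  rcases h with h | h
  · exact hj_dedekind
  · refine BR.hj fun 𝔭 h𝔭 => ?_
    rcases eq_or_ne 𝔭 ⊥ with rfl | hne
    · exact Or.inr ⟨O, inferInstance, inferInstance, inferInstance, Ideal.Quotient.mk ⊥,
        RingHom.FiniteType.of_surjective _ Ideal.Quotient.mk_surjective, Or.inl h⟩
    · exact Or.inl ((Ideal.Quotient.maximal_ideal_iff_isField_quotient 𝔭).1 (h𝔭.isMaximal hne))

/-- Let `V` be a valuation ring, of any rank, of a field `K`. Let `O ⊆ V` be a Dedekind domain of
characteristic zero or finite over its `p`-th powers (for example, `O = k°` for a discretely valued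
field `k`), and let `π ≠ 0` be an element of `O` (for example, a uniformizer of `k`) which is
topologically nilpotent in `V`. Let `𝒳` be an integral projective `O`-scheme with function field `K`
and with the homogeneous coordinates `W`; let the chart `w ≠ 0` contain the centre of `V`. Let
`E ⊆ K` be a subfield, finitely generated over `O`, such that the restriction of `V` to `E` is a
discrete valuation ring, or has divergent sequences of quadratic transforms, or is log uniformizable
on all models of `E`. Let `x` be the generic point of an affine variety over `E` with the function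
field `K`, of dimension `r` and degree at most `δ`, such that `𝒳` is defined in degree `e ≥ 1`.
Suppose that the primes `≤ (δ e ^ r) ^ 2 ^ r` are units of `V`, and that the value of `π` is not a
`p`-th power in the value group of `V` if `p` is the residue characteristic of `V`.

Then there are `d` and `N₀` such that for all `N ≥ N₀` divisible by `d` there are `K' = K(ϖ)`,
`ϖ ^ N = π`, and valuation rings `V'` of `K'` over `V`, and for all such `K'` and `V'` there is a
closed subscheme of the fibre of `𝒳 ⊗ O[ϖ]` over `ϖ = 0` such that the blowing-up in this subscheme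
(the main component if `K ⊗ k(ϖ)` is not a field) is semistable at the centre of `V'` and at the
centres of all valuation rings `V₁ ⊇ V'` with `|ϖ| < 1`. The prime divisors `q` of `d` are units of
`V`, or all powers of the value of `π / z ^ q` are greater than the value of `π`, for some `z`. -/
theorem result {K : Type u} [Field K] (V : ValuationSubring K)
    (O : Subring K) [IsDedekindDomain O] (hOb : IsBase O) (hO : ∀ a ∈ O, a ∈ V)
    (π : K) (hπ : π ∈ O) (hπ0 : π ≠ 0) (hπ1 : V.valuation π < 1)
    (hπV : ∀ z : K, z ≠ 0 → ∃ n : ℕ, V.valuation π ^ n ≤ V.valuation z)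
    (hdiv : ∀ p : ℕ, p.Prime → V.valuation (p : K) < 1 → ∀ z : K,
      V.valuation z ^ p ≠ V.valuation π)
    (E : Subfield K)
    (hEv : IsAdmissible (O.comap E.subtype) (V.comap E.subtype))
    (N r δ e : ℕ) (he : 1 ≤ e) (x : Fin N → K) (hx : DegreeAtMost E x r δ)
    (hp : ∀ p : ℕ, p.Prime → p ≤ (δ * e ^ r) ^ 2 ^ r → V.valuation (p : K) = 1)
    (W : Set K) (hW : W.Finite) (w : K) (hw : w ∈ W) (hw0 : w ≠ 0)
    (hwV : ∀ z ∈ W, z / w ∈ V) (hWx : IsDefinedInDegree O E x e W w) :
    ∃ d N₀ : ℕ, 0 < d ∧ (∀ q : ℕ, q.Prime → q ∣ d → V.valuation (q : K) = 1 ∨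
        ∃ z : K, ∀ n : ℤ, V.valuation π < V.valuation (π / z ^ q) ^ n) ∧
      ∀ N : ℕ, N₀ ≤ N → d ∣ N →
      (∃ (K' : Type u) (_ : Field K') (_ : Algebra K K') (V' : ValuationSubring K') (ϖ : K'),
        IsLift V π N V' ϖ) ∧
      ∀ {K' : Type u} [Field K'] [Algebra K K'] (V' : ValuationSubring K') (ϖ : K'),
        IsLift V π N V' ϖ →
        ∃ Y : Set K',
          IsVerticalCentre (ramifiedRing (algebraMap K K') O ϖ) ϖ (algebraMap K K' '' W) Y ∧
          ∀ V₁ : ValuationSubring K', V' ≤ V₁ → V₁.valuation ϖ < 1 →
            IsSemistableAt V₁ (ramifiedRing (algebraMap K K') O ϖ)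
              (blowUpCoordinates (algebraMap K K' '' W) Y) ϖ := by
  obtain ⟨htop, htr, C, hC⟩ := hx
  obtain ⟨hWp, hxA, T, hT, hE, hTA⟩ := hWx
  have hR : HJ O := hOb.hj
  have hOE : ∀ a : O, (a : K) ∈ E := by
    intro a
    rw [hE]
    exact Subfield.subset_closure (Or.inl a.2)
  -- the restriction to `E`
  let ρ : O →+* E := O.subtype.codRestrict E.toSubring hOE
  have hρO : ((ρ.range : Subring E) : Set E) = (O.comap E.subtype : Set E) := by
    ext z
    constructor
    · rintro ⟨a, rfl⟩
      exact a.2
    · intro hz
      exact ⟨⟨(z : K), hz⟩, rfl⟩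
  have hgen : ∃ S : Set E, S.Finite ∧ ∀ z : E, Fr (Pool.Agent.R187.CT.rg ρ S) z := by
    refine ⟨E.subtype ⁻¹' T, hT.preimage (E.subtype.injective.injOn), fun z => ?_⟩
    have h1 : Subfield.closure ((O : Set K) ∪ T) ≤
        (fr (Pool.Agent.R187.CT.rg ρ (E.subtype ⁻¹' T))).map E.subtype := by
      rw [Subfield.closure_le]
      rintro x (hx | hx)
      · exact ⟨ρ ⟨x, hx⟩, le_fr _ (Subring.subset_closure (Or.inl ⟨⟨x, hx⟩, rfl⟩)), rfl⟩
      · have hxE : x ∈ E := by
          rw [hE]
          exact Subfield.subset_closure (Or.inr hx)
        exact ⟨⟨x, hxE⟩, le_fr _ (Subring.subset_closure (Or.inr hx)), rfl⟩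
    rw [← hE] at h1
    obtain ⟨y, hy, hyz⟩ := h1 z.2
    have h2 : y = z := E.subtype.injective hyz
    rw [h2] at hy
    exact Pool.Agent.R187.CT.fr_iff.2 hy
  have hgE : Pool.Agent.R187.CT.Good ρ (V.comap (algebraMap E K)) := by
    have h1 : ∀ T : Set E, Pool.Agent.R187.CT.rg ρ T =
        Subring.closure (((O.comap E.subtype : Subring E) : Set E) ∪ T) := by
      intro T
      change Subring.closure (((ρ.range : Subring E) : Set E) ∪ T) = _
      rw [hρO]
    rcases hEv with h | h | h
    · exact Pool.Agent.R187.CT.good_dv hR ρ _ (Or.inl h)
    · refine Pool.Agent.R187.CT.good_dv hR ρ _ (Or.inr fun T hT hTV => ?_)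
      rw [h1] at hTV ⊢
      exact (h T hT hTV).dv
    · refine Pool.Agent.R187.CT.good_given hR ρ _ hgen fun T hT hTV hTE => ?_
      rw [h1] at hTV hTE ⊢
      exact h T hT hTV hTE
  -- the powers of `π`
  have hinf : Infinite E := by
    have hpow : Function.Injective (fun n : ℕ => V.valuation π ^ n) := by
      have h0 : V.valuation π ≠ 0 := (map_ne_zero _).2 hπ0
      exact pow_right_injective₀ (zero_lt_iff.2 h0) hπ1.ne
    refine Infinite.of_injective (fun n : ℕ => (⟨π, hOE ⟨π, hπ⟩⟩ : E) ^ n) fun m n hmn => ?_
    apply hpow
    have h1 : π ^ m = π ^ n := congrArg Subtype.val hmn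
    change V.valuation π ^ m = V.valuation π ^ n
    rw [← map_pow, h1, map_pow]
  have hπp : IsProduct E x e π := Pool.Agent.N98.SS.pprod_const (E := E) ⟨π, hOE ⟨π, hπ⟩⟩
  obtain ⟨hMod, T', n, X, hSt, hmon⟩ := Pool.Agent.N98.SS.stage_of_model' V O
    (fun a ha => hO a ha) hR E he x htop htr C hC hp hW hWp hw hwV hxA hT hE
    hTA hOE hgE {π} (Set.finite_singleton π) (by
      rintro g rfl
      exact ⟨hπ0, hO g hπ, hπp⟩)
  obtain ⟨d, N₀, hd, hvd, h3⟩ := Pool.Agent.N98.SS.ss_main_gen Pool.Agent.H176.DT.p_et6
    Pool.Agent.H176.DT.p_tor6 V O hO hW hw hw0 hwV hMod π hSt (hmon π rfl) hπ0 hπ1 hπV hdiv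
  refine ⟨d, N₀ + 1, hd, hvd, fun N hN' hdN =>
    ⟨Pool.Agent.H176.DT.exists_root _ _ (by omega), ?_⟩⟩
  have hN : N₀ ≤ N := by omega
  rintro K' _ _ V' ϖ ⟨hV', hϖ, hgen'⟩
  obtain ⟨Y, d', n', h4, h5, h6, w', h7, h8, h9, P, h10, h11⟩ := h3 N hN hdN V' ϖ hV' hϖ hgen'
  have h12 : ramifiedRing (algebraMap K K') O ϖ = Pool.Agent.H176.DT.Orm O ϖ := rfl
  rw [h12]
  refine ⟨Y, ⟨h4, d', n', h5, h6⟩, fun V₁ hV₁ hϖ₁ => ⟨w', h7, h8, fun z hz => hV₁ (h9 z hz), ?_⟩⟩
  subst h10
  have hOV' : ∀ a : K, a ∈ V → algebraMap K K' a ∈ V' := by
    intro a ha
    have h13 : a ∈ V'.comap (algebraMap K K') := by rw [hV']; exact ha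
    exact h13
  have hϖV : ϖ ∈ V' := by
    rw [← V'.valuation_le_one_iff]
    by_contra hcon
    push Not at hcon
    have h13 : 1 < V'.valuation ϖ ^ N := one_lt_pow₀ hcon (by omega)
    rw [← map_pow, hϖ] at h13
    exact absurd ((V'.valuation_le_one_iff _).2 (hOV' π (hO π hπ))) (not_le.2 h13)
  refine Pool.Agent.N98.SS.semi_coarse V' V₁ hV₁ _ ?_ ϖ hϖ₁ h11
  unfold chart
  rw [Subring.closure_le]
  rintro z (hz | ⟨y, hy, rfl⟩)
  · refine (?_ : Pool.Agent.H176.DT.Orm O ϖ ≤ V'.toSubring) hz
    change Subring.closure ((O.map (algebraMap K K') : Set K') ∪ {ϖ}) ≤ _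
    rw [Subring.closure_le]
    rintro z (⟨a, ha, rfl⟩ | hz)
    · exact hOV' a (hO a ha)
    · rw [Set.mem_singleton_iff.1 hz]
      exact hϖV
  · exact h9 y hy

end Pool.Agent.Results.MP_1a953e_ag.BoundedDegreeAdicPoints
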