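import Pool.Agent.N98.SS.Fin2
import Pool.Agent.N98.SS.Gen
import Pool.Agent.H176.DT.H12
import Pool.Agent.H176.DT.H13
import Pool.Agent.N102.FL.LPts
import Pool.Agent.N169.FL.WT
import Pool.Agent.N433.FL.Pt
import Pool.Agent.N301.FL.Sys
import Pool.Agent.N595.FL.Cut
import Pool.Agent.N102.FL.Stg

/-!
MP_1a953e_ag: semistable uniformization, in equal characteristic `p > 0` and in all dimensions, of
points of `X^ad` of all ranks, for varieties `X` which are given by linear relations with arbitrary
Frobenius levels.

Let `k'` be a (complete) discretely valued field of characteristic `p` with the ring of integers `O`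
and the uniformizer `π`, and let `k` be a perfect subfield of `O`; for example, `k' = k((π))`. Let
`X` be an integral projective `k'`-scheme of any dimension with the function field `K`, with the
projective flat model `𝒳` over `O`. Consider a point of the adic space `X^ad` over the generic point
of `X`, that is, a valuation ring `V` of `K`, of any rank, which contains `O`, such that `π` is
topologically nilpotent. Let `E ⊆ K` be a subfield with `k' ⊆ E` (for example, `E = k'`), and `R` a
noetherian ring with fraction field `E`, contained in the coordinate ring of the affine chart of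
`𝒳` which contains the centre of `V`, such that `R` is a Dedekind ring (for example, `R = O`), or
`V ∩ E` is log uniformizable on `Spec R` (this is known if `R` is quasi-excellent of dimension at
most `3`, by Cossart and Piltant). Suppose that `K` is generated over `E` by elements
`z 1, ..., z s` with arbitrary linear relations over `k` between `1` and the powers
`z t ^ (p ^ e t)` (`e t ≥ 0` arbitrary), and by elements `x 1, ..., x n` with equations
`G i (v, z, x) = 0` (`v b` elements of `E`) which are schön in the directions of the `x j`, relative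
to the torus of the variables of `(v, z)`, and that there are no other relations (`dimension`).
Suppose that the homogeneous coordinates of `𝒳` are monomials: products of powers of elements of
`E`, of the `x j` and of linear combinations over `k` of `1` and of powers `z t ^ (p ^ (e t - f))`,
`f ≥ 0`, and that the `z t` and `x j` are quotients of regular functions on the chart, the
denominators being monomials. Suppose that `|π|` is not a `p`-th power in the value group of `V`.

Then there are numbers `d` and `N₀` such that, for every `N ≥ N₀` divisible by `d`, for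
`l = k'(ϖ)`, `ϖ ^ N = π`, with the ring of integers `O[ϖ]`, and for every preimage `V'` of `V` in
`X_l^ad`, a blowing-up of `𝒳 ⊗ O[ϖ]` in a closed subscheme of the special fibre, that is, an
admissible blowing-up, is semistable at the specialization of `V'`, and at the specializations of
all generizations of `V'` in `X_l^ad`: the local ring is regular, and `ϖ` is a product of distinct
elements of a regular system of parameters. The number `d` is prime to `p` (so that one can choose
`N` prime to `p` and `l / k'` is a finite separable, tamely ramified extension), unless the value of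
`π` is infinitely near to a `p`-th power `|g| ^ p` (all powers of the value of `π / g ^ p` are
greater than the value of `π`); in particular, `d` is prime to `p` if `V` has rank one. There is no
condition on the rank, on the defect and on the residue field of `V`.

Example: `X` is the closure in `ℙ^N` over `k'` of an irreducible component, not contained in a
coordinate hyperplane, of the affine scheme defined by a system
`∑ j, c i j * (v j * x j ^ (d j)) ^ (q j) = b i`, where `c i j, b i ∈ k`, the `v j` are nonzero
elements of `k'`, the `q j` are arbitrary powers of `p` and the `d j` are prime to `p`.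

The proof combines the schön systems of MP_b525bf_ag.FrobeniusLevels and the Jacobian criterion
along `V` of MP_5b7a2c_ag.FrobeniusLevelsAscent with the construction of semistable models from log
regular ones of the starting files (helper176 and others), in the general form of helper98's
BoundedDegreeAdicPoints.
-/

set_option autoImplicit false

universe u

namespace Pool.Agent.Results.MP_1a953e_ag.FrobeniusLevelsAdicPoints

open Pool.Agent.W418.LU2 Pool.Agent.N102.FL Pool.Agent.TH214.SD

/-- The local ring of `Spec B` at the centre of the valuation ring `V`: the fractions of elements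
of `B` whose denominators are units of `V`. -/
def centreRing {F : Type u} [Field F] (V : ValuationSubring F) (B : Subring F) : Subring F where
  carrier := {x | ∃ a ∈ B, ∃ b ∈ B, b ≠ 0 ∧ b⁻¹ ∈ V ∧ x = a * b⁻¹}
  mul_mem' := (lo V.toSubring B).mul_mem'
  one_mem' := (lo V.toSubring B).one_mem'
  add_mem' := (lo V.toSubring B).add_mem'
  zero_mem' := (lo V.toSubring B).zero_mem'
  neg_mem' := (lo V.toSubring B).neg_mem'

/-- The subring `P` of the field `K` is a regular local ring, and `ϖ` is the product of some (at
least one) of the elements of a regular system of parameters. (If `ϖ` is a uniformizer of a discrete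
valuation ring `O` with perfect residue field and `P` is the local ring of an integral flat
`O`-scheme of finite type at a point of the special fibre, then these elements `t i` define a
morphism from a neighbourhood of this point to `Spec O[t 0, ..., t d] / (t 0 * ... * t d - ϖ)` which
is flat with regular, hence smooth, fibre through this point; so it is smooth there.) -/
def IsSemistable {K : Type u} [Field K] (P : Subring K) (ϖ : K) : Prop :=
  ∃ (_ : IsRegularLocalRing P) (n : ℕ) (x : Fin n → P) (S : Finset (Fin n)),
    Ideal.span (Set.range x) = IsLocalRing.maximalIdeal P ∧ ringKrullDim P = n ∧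
      S.Nonempty ∧ ϖ = ∏ i ∈ S, (x i : K)

/-- The coordinate ring `O[v / w : v ∈ W]` of the chart `w ≠ 0` of the projective `O`-scheme
`Proj O[W]` with the function field `K` and the homogeneous coordinates `W ⊆ K`. -/
def chart {K : Type u} [Field K] (O : Subring K) (W : Set K) (w : K) : Subring K :=
  Subring.closure ((O : Set K) ∪ {z | ∃ v ∈ W, z = v / w})

/-- `Y` is a finite set of forms of some degree `d` over `O` in the homogeneous coordinates `W`,
and `p ^ n` times any form of degree `d` is a linear combination of the forms in `Y`, for some `n`.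
So the closed subscheme of `Proj O[W]` defined by the forms in `Y` is contained in the
fibre over `p`. -/
def IsVerticalCentre {K : Type u} [Field K] (O : Subring K) (p : K) (W Y : Set K) : Prop :=
  Y.Finite ∧ ∃ d n : ℕ, Y ⊆ ((Submodule.span O W) ^ d : Submodule O K) ∧
    ∀ z ∈ (Submodule.span O W) ^ d, p ^ n * z ∈ Submodule.span O Y

/-- The homogeneous coordinates of the blowing-up of `Proj O[W]` in the closed subscheme which is
defined by the forms in `Y`. -/
def blowUpCoordinates {K : Type u} [Field K] (W Y : Set K) : Set K :=
  {z | ∃ y ∈ Y, ∃ v ∈ W, z = y * v}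

/-- The projective scheme `Proj O[W]` is semistable at the centre of `V`, which lies in the chart
`w ≠ 0`. -/
def IsSemistableAt {K : Type u} [Field K] (V : ValuationSubring K) (O : Subring K) (W : Set K)
    (ϖ : K) : Prop :=
  ∃ w ∈ W, w ≠ 0 ∧ (∀ v ∈ W, v / w ∈ V) ∧ IsSemistable (centreRing V (chart O W w)) ϖ

/-- The ring `O[ϖ]`. (If `O` is a discrete valuation ring with the uniformizer `π = ϖ ^ N`, then it
is the ring of integers of the totally ramified extension `k(ϖ)` of the field of fractions `k` of
`O`.) -/
def ramifiedRing {L K' : Type u} [Field L] [Field K'] (φ : L →+* K') (O : Subring L) (ϖ : K') :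
    Subring K' :=
  Subring.closure ((O.map φ : Set K') ∪ {ϖ})

/-- `K' = K(ϖ)` with `ϖ ^ N = π`, and `V'` is a valuation ring of `K'` over the valuation ring `V`
of `K`. -/
def IsLift {K K' : Type u} [Field K] [Field K'] [Algebra K K'] (V : ValuationSubring K) (π : K)
    (N : ℕ) (V' : ValuationSubring K') (ϖ : K') : Prop :=
  V'.comap (algebraMap K K') = V ∧ ϖ ^ N = algebraMap K K' π ∧
    ∀ z : K', z ∈ Subfield.closure (Set.range (algebraMap K K') ∪ {ϖ})

/-- The chart `A[I / f]` of the blowing-up of `Spec A` in the ideal `I`. -/
def blowUpChart {F : Type u} [Field F] (A : Subring F) (I : Ideal A) (f : A) : Subring F :=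
  Subring.closure ((A : Set F) ∪ {z | ∃ a ∈ I, z = (a : F) / (f : F)})

/-- `P` is a regular local ring and the zero set of `J` is a divisor with strict normal
crossings: the radical of `J` is generated by the product of some of the elements of a regular
system of parameters. -/
def RegularPair (P : Type u) [CommRing P] (J : Ideal P) : Prop :=
  ∃ (_ : IsRegularLocalRing P) (n : ℕ) (x : Fin n → P) (s : Finset (Fin n)),
    Ideal.span (Set.range x) = IsLocalRing.maximalIdeal P ∧ ringKrullDim P = n ∧
      J.radical = Ideal.span {∏ i ∈ s, x i}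

/-- The blowing-up of `X = Spec A` in `V(I)` is a log desingularization of `(X, V(D))` along the
valuation ring `V`. Here `f ∈ I` generates `I V`, the centre of the lift of the valuation lies in
the chart `Spec A[I / f]`, and the ideal `D I` defines the preimage of `V(D) ∪ V(I)`. -/
def IsLogDesingularization {F : Type u} [Field F] (V : ValuationSubring F) (A : Subring F)
    (D I : Ideal A) : Prop :=
  ∃ f ∈ I, f ≠ 0 ∧ (∀ a ∈ I, (a : F) / (f : F) ∈ V) ∧
    RegularPair (centreRing V (blowUpChart A I f))
      (Ideal.span {z | ∃ a ∈ D * I, (z : F) = (a : F)})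

/-- The valuation ring `V` is log uniformizable on `Spec A`. (The blowings-up in the ideals
`I₀ * I₁` are cofinal: the blowing-up in `I₀ * I₁` factors through the blowing-up in `I₀`.) -/
def IsLogUniformizable {F : Type u} [Field F] (V : ValuationSubring F) (A : Subring F) : Prop :=
  ∀ D I₀ : Ideal A, D ≠ ⊥ → I₀ ≠ ⊥ →
    ∃ I₁ : Ideal A, I₁ ≠ ⊥ ∧ IsLogDesingularization V A D (I₀ * I₁)

/-- `R` is a noetherian ring with fraction field `E`, which contains `O` and is contained in the
coordinate ring of the chart `w ≠ 0` of `Proj O[W]`, and `R` is a Dedekind ring (or a field), or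
`V ∩ E` is log uniformizable on `Spec R`. -/
def IsBaseModel {E K : Type u} [Field E] [Field K] [Algebra E K] (V : ValuationSubring K)
    (O : Subring K) (W : Set K) (w : K) (R : Subring E) : Prop :=
  IsNoetherianRing R ∧ (∀ g : E, ∃ a ∈ R, ∃ b ∈ R, b ≠ 0 ∧ g = a * b⁻¹) ∧
    O ≤ R.map (algebraMap E K) ∧ R.map (algebraMap E K) ≤ chart O W w ∧
    (IsDedekindDomain R ∨ IsLogUniformizable (V.comap (algebraMap E K)) R)

/-- The nonzero homogeneous coordinates `W` are monomials, and the `z t` and `x j` are quotients
`a / b` of elements of the coordinate ring of the chart `w ≠ 0` such that `b` is a monomial. -/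
def IsMonomialModel (k E : Type u) {K : Type u} [Field k] [Field E] [Field K] [Algebra k K]
    [Algebra E K] (p : ℕ) {s n : ℕ} (e : Fin s → ℕ) (z : Fin s → K) (x : Fin n → K)
    (O : Subring K) (W : Set K) (w : K) : Prop :=
  (∀ g ∈ W, g ≠ 0 → ∃ u ∈ monomials k E p e z x, (u : K) = g) ∧
  (∀ t, ∃ b ∈ chart O W w, (∃ u ∈ monomials k E p e z x, (u : K) = b) ∧
    b * z t ∈ chart O W w) ∧
  ∀ j, ∃ b ∈ chart O W w, (∃ u ∈ monomials k E p e z x, (u : K) = b) ∧ b * x j ∈ chart O W w

/-- Let `k ⊆ E ⊆ K` be fields, `k` perfect of characteristic `p > 0`, and let `V` be a valuation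
ring of `K` which contains `k`. Let `O ⊆ V` be a Dedekind ring (for example, a discrete valuation
ring) and `π ≠ 0` an element of `O` (for example, a uniformizer) with `|π| < 1`, such that the powers
of `|π|` are cofinal. Let `𝒳 = Proj O[W]` be an integral projective `O`-scheme with the function
field `K` and the homogeneous coordinates `W`; let the chart `w ≠ 0` contain the centre of `V`. Let
`R` be a base model (`IsBaseModel`) with the fraction field `E`. Let `K` be generated over `E` by the
coordinates `z t` and `x j` of a relative schön system over a system of linear relations between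
powers `z t ^ (p ^ e t)` (`IsLeveledSystemOver`), and let `𝒳` be given by monomials
(`IsMonomialModel`). Suppose that `|π|` is not a `p`-th power in the value group of `V`.

Then there are `d`, prime to `p` unless `|π|` is infinitely near to a `p`-th power, and `N₀` such
that for all `N ≥ N₀` divisible by `d` there are `K' = K(ϖ)`, `ϖ ^ N = π`, and valuation rings `V'` of
`K'` over `V`, and for all such `K'` and `V'` there is a closed subscheme of the fibre of
`𝒳 ⊗ O[ϖ]` over `ϖ = 0` such that the blowing-up in this subscheme (the main component if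
`K ⊗ k'(ϖ)` is not a field) is semistable at the centres of all valuation rings `V₁ ⊇ V'` with
`|ϖ| < 1`. -/
theorem result {p : ℕ} [Fact p.Prime] {k E K : Type u} [Field k] [PerfectField k] [CharP k p]
    [Field E] [Field K] [Algebra k E] [Algebra k K] [Algebra E K] [IsScalarTower k E K]
    (V : ValuationSubring K) (hkV : ∀ a : k, algebraMap k K a ∈ V)
    (O : Subring K) [IsDedekindDomain O] (hO : ∀ a ∈ O, a ∈ V)
    (π : K) (hπ : π ∈ O) (hπ0 : π ≠ 0) (hπ1 : V.valuation π < 1)
    (hπV : ∀ g : K, g ≠ 0 → ∃ n : ℕ, V.valuation π ^ n ≤ V.valuation g)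
    (hdiv : ∀ g : K, V.valuation g ^ p ≠ V.valuation π)
    (W : Set K) (hW : W.Finite) (w : K) (hw : w ∈ W) (hw0 : w ≠ 0) (hwV : ∀ g ∈ W, g / w ∈ V)
    (R : Subring E) (hR : IsBaseModel V O W w R)
    {h s n q c : ℕ} (v : Fin h → E) (e : Fin s → ℕ) (z : Fin s → K) (x : Fin n → K)
    (G : Fin q → (Fin (h + s) ⊕ Fin n → ℤ) →₀ k) (hG : IsLeveledSystemOver p c v e z x G)
    (hM : IsMonomialModel k E p e z x O W w) :
    ∃ d N₀ : ℕ, 0 < d ∧
      (p ∣ d → ∃ g : K, ∀ m : ℤ, V.valuation π < V.valuation (π / g ^ p) ^ m) ∧
      ∀ N : ℕ, N₀ ≤ N → d ∣ N →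
      (∃ (K' : Type u) (_ : Field K') (_ : Algebra K K') (V' : ValuationSubring K') (ϖ : K'),
        IsLift V π N V' ϖ) ∧
      ∀ {K' : Type u} [Field K'] [Algebra K K'] (V' : ValuationSubring K') (ϖ : K'),
        IsLift V π N V' ϖ →
        ∃ Y : Set K',
          IsVerticalCentre (ramifiedRing (algebraMap K K') O ϖ) ϖ (algebraMap K K' '' W) Y ∧
          ∀ V₁ : ValuationSubring K', V' ≤ V₁ → V₁.valuation ϖ < 1 →
            IsSemistableAt V₁ (ramifiedRing (algebraMap K K') O ϖ)
              (blowUpCoordinates (algebraMap K K' '' W) Y) ϖ := by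
  have hp : p.Prime := Fact.out
  have hcK : CharP K p := charP_of_injective_algebraMap (algebraMap k K).injective p
  obtain ⟨hRn, hfr, hOR, hRA, hRLU⟩ := hR
  obtain ⟨hWm, hzA, hxA⟩ := hM
  have hchV : chart O W w ≤ V.toSubring := by
    unfold chart
    rw [Subring.closure_le]
    rintro g (hg | ⟨g', hg', rfl⟩)
    · exact hO g hg
    · exact hwV g' hg'
  have hRW : R ≤ (V.comap (algebraMap E K)).toSubring := fun a ha => hchV (hRA ⟨a, ha, rfl⟩)
  have hLU : LogUnif (V.comap (algebraMap E K)) R := by
    rcases hRLU with hR | hR
    · exact logUnif_of_dedekind _ R hRW hfr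
    · exact hR
  have hsys : S_SYS.{u} := Pool.Agent.N301.FL.t_sys Pool.Agent.N169.FL.WT.t_wt
    Pool.Agent.N433.FL.t_pt
  have hstg : S_STG.{u} := Pool.Agent.N102.FL.STG.t_stg Pool.Agent.N595.FL.t_cut
  obtain ⟨hMod, T', n', X, hSt, hmon⟩ := stage_core hsys hstg hG V hkV O hO R hfr hLU hW hw hw0
    hwV hWm hOR hRA hzA hxA π hπ hπ0
  have hval : ∀ q' : ℕ, q'.Prime → q' ≠ p → V.valuation (q' : K) = 1 := by
    intro q' hq' hne
    have h1 : ((q' : k)) ≠ 0 := by
      intro h0
      have h2 := (CharP.cast_eq_zero_iff k p q').1 h0
      exact hne ((Nat.prime_dvd_prime_iff_eq hp hq').1 h2).symm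
    have h3 : (q' : K) ≠ 0 := by
      rw [← map_natCast (algebraMap k K)]
      exact (map_ne_zero _).2 h1
    refine le_antisymm ((V.valuation_le_one_iff _).2 ?_) ?_
    · rw [← map_natCast (algebraMap k K)]
      exact hkV _
    · have h4 : V.valuation ((q' : K)⁻¹) ≤ 1 := by
        refine (V.valuation_le_one_iff _).2 ?_
        rw [← map_natCast (algebraMap k K), ← map_inv₀]
        exact hkV _
      rw [map_inv₀] at h4
      exact (inv_le_one₀ (zero_lt_iff.2 ((map_ne_zero _).2 h3))).1 h4
  obtain ⟨d, N₀, hd, hvd, h3⟩ := Pool.Agent.N98.SS.ss_main_gen Pool.Agent.H176.DT.p_et6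
    Pool.Agent.H176.DT.p_tor6 V O hO hW hw hw0 hwV hMod π hSt hmon hπ0 hπ1 hπV (by
      intro q' hq' hlt
      by_cases hne : q' = p
      · rw [hne]
        exact hdiv
      · rw [hval q' hq' hne] at hlt
        exact absurd hlt (lt_irrefl _))
  refine ⟨d, N₀ + 1, hd, ?_, fun N hN' hdN =>
    ⟨Pool.Agent.H176.DT.exists_root _ _ (by omega), ?_⟩⟩
  · intro hpd
    rcases hvd p hp hpd with h4 | h4
    · rw [CharP.cast_eq_zero K p, map_zero] at h4
      exact absurd h4 zero_ne_one
    · exact h4
  have hN : N₀ ≤ N := by omega
  rintro K' _ _ V' ϖ ⟨hV', hϖ, hgen'⟩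
  obtain ⟨Y, d', n', h4, h5, h6, w', h7, h8, h9, P, h10, h11⟩ := h3 N hN hdN V' ϖ hV' hϖ hgen'
  have h12 : ramifiedRing (algebraMap K K') O ϖ = Pool.Agent.H176.DT.Orm O ϖ := rfl
  rw [h12]
  refine ⟨Y, ⟨h4, d', n', h5, h6⟩, fun V₁ hV₁ hϖ₁ => ⟨w', h7, h8, fun z hz => hV₁ (h9 z hz), ?_⟩⟩
  subst h10
  have hOV' : ∀ a : K, a ∈ V → algebraMap K K' a ∈ V' := by
    intro a ha
    have h13 : a ∈ V'.comap (algebraMap K K') := by rw [hV']; exact ha
    exact h13
  have hϖV : ϖ ∈ V' := by
    rw [← V'.valuation_le_one_iff]
    by_contra hcon
    push Not at hcon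
    have h13 : 1 < V'.valuation ϖ ^ N := one_lt_pow₀ hcon (by omega)
    rw [← map_pow, hϖ] at h13
    exact absurd ((V'.valuation_le_one_iff _).2 (hOV' π (hO π hπ))) (not_le.2 h13)
  refine Pool.Agent.N98.SS.semi_coarse V' V₁ hV₁ _ ?_ ϖ hϖ₁ h11
  unfold chart
  rw [Subring.closure_le]
  rintro z (hz | ⟨y, hy, rfl⟩)
  · refine (?_ : Pool.Agent.H176.DT.Orm O ϖ ≤ V'.toSubring) hz
    change Subring.closure ((O.map (algebraMap K K') : Set K') ∪ {ϖ}) ≤ _
    rw [Subring.closure_le]
    rintro z (⟨a, ha, rfl⟩ | hz)
    · exact hOV' a (hO a ha)
    · rw [Set.mem_singleton_iff.1 hz]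
      exact hϖV
  · exact h9 y hy

end Pool.Agent.Results.MP_1a953e_ag.FrobeniusLevelsAdicPoints
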